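import Pool.Agent.D0H81.LHY.Tail6

/-!
# The momentum distribution above `√ρ`: the depletion lives at momenta of order `√ρ`

Setting and notation are those of the starting file `DepletionLowerBound`: `N` particles of mass
`m` in the periodic box of side `ℓ`, pair interaction `v ≥ 0`, `v` integrable and even (no hard
core), density `ρ = N / ℓ ^ 3`; positions are written in the rescaled variable `y = x / ℓ`, so that
a state is a function `ψ : Cfg N → ℂ` on `(ℝ³/ℤ³)^N` with normalised Haar measure, and with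
`ψ = ∑_M (coef ψ M) e^{2πi ∑_j M_j · y_j}`

* `kinE ((1 / 2m) (2π/ℓ)²) ψ + potE (perPot v ℓ) ψ` is the quadratic form of the Hamiltonian `H_N`
  of the problem on the box of side `ℓ` (`∞` if `ψ` is outside the form domain),
* `occE ψ P = ∑_M #{j | P M_j} |coef ψ M|²` is the expected number of particles whose momentum
  label `n` satisfies `P`; the momentum is `p = 2π n/ℓ`, so `(2π/ℓ)² ∑_a n_a² = |p|²`.

The theorem. Write `N_S` for the expected number of particles with momentum in `S`. There are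
constants depending on `m` and `v` only such that at small density `ρ` and for all large `N`, every
normalised state `ψ` whose energy exceeds the infimum by at most `δ ρ^{3/2} N` satisfies, for every
`K ≥ 1`,

1. `N_{|p| ≥ K√ρ} ≤ (C/K) √ρ N + (C/K²) (δ √ρ N + N_{0 < |p| ≤ √(Cρ)})`;
2. if `δ ≤ c`: `N_{|p| ≥ K√ρ} ≤ (C/K) N_{p ≠ 0}` (at most the fraction `C/K` of the particles
   outside the condensate has a momentum of size `≥ K√ρ`);
3. if `δ ≤ c` and `K√ρ ≤ c`: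
   `(c/K) √ρ N ≤ N_{K√ρ ≤ |p| ≤ √C K√ρ} + (C/K²) N_{0 < |p| ≤ √(Cρ)}`.

`1/K` is the power of Bogoliubov theory. The ground state is the case `δ = 0`.
-/

open MeasureTheory UnitAddTorus
open scoped ENNReal

namespace Pool.Agent.Results.MP_4952d6_mp.MomentumDistributionTail

open Pool.Agent.H751R2.LHY

theorem result (m : ℝ) (hm : 0 < m) (v : (Fin 3 → ℝ) → ℝ) (hvm : Measurable v)
    (hv : Integrable v) (h0 : ∀ x, 0 ≤ v x) (he : ∀ x, v (-x) = v x) (hV : 0 < ∫ x, v x) :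
    ∃ c C ρ₀ : ℝ, 0 < c ∧ 0 < C ∧ 0 < ρ₀ ∧ ∀ ρ : ℝ, 0 < ρ → ρ < ρ₀ →
      ∃ N₀ : ℕ, ∀ N : ℕ, N₀ ≤ N → ∀ ℓ : ℝ, 0 < ℓ → (N : ℝ) = ρ * ℓ ^ 3 →
        ∀ δ : ℝ, 0 ≤ δ → ∀ ψ : Cfg N → ℂ, MemLp ψ 2 → ∫ x, ‖ψ x‖ ^ 2 = 1 →
          (∀ φ : Cfg N → ℂ, MemLp φ 2 → ∫ x, ‖φ x‖ ^ 2 = 1 →
            kinE (1 / (2 * m) * (2 * Real.pi / ℓ) ^ 2) ψ + potE (perPot v ℓ) ψ ≤
              kinE (1 / (2 * m) * (2 * Real.pi / ℓ) ^ 2) φ + potE (perPot v ℓ) φ +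
                ENNReal.ofReal (δ * (ρ * √ρ) * N)) →
          ∀ K : ℝ, 1 ≤ K →
            (occE ψ (fun n => K ^ 2 * ρ ≤ (2 * Real.pi / ℓ) ^ 2 * (∑ a, (n a : ℝ) ^ 2)) ≤
              ENNReal.ofReal (C / K * √ρ * N) + ENNReal.ofReal (C / K ^ 2) *
                (ENNReal.ofReal (δ * √ρ * N) + occE ψ (fun n => n ≠ 0 ∧
                  (2 * Real.pi / ℓ) ^ 2 * (∑ a, (n a : ℝ) ^ 2) ≤ C * ρ))) ∧
            (δ ≤ c →
              occE ψ (fun n => K ^ 2 * ρ ≤ (2 * Real.pi / ℓ) ^ 2 * (∑ a, (n a : ℝ) ^ 2)) ≤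
                ENNReal.ofReal (C / K) * occE ψ (fun n => n ≠ 0)) ∧
            (δ ≤ c → K * √ρ ≤ c →
              ENNReal.ofReal (c / K * √ρ * N) ≤
                occE ψ (fun n => K ^ 2 * ρ ≤ (2 * Real.pi / ℓ) ^ 2 * (∑ a, (n a : ℝ) ^ 2) ∧
                  (2 * Real.pi / ℓ) ^ 2 * (∑ a, (n a : ℝ) ^ 2) ≤ C * (K ^ 2 * ρ)) +
                ENNReal.ofReal (C / K ^ 2) * occE ψ (fun n => n ≠ 0 ∧
                  (2 * Real.pi / ℓ) ^ 2 * (∑ a, (n a : ℝ) ^ 2) ≤ C * ρ)) := by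
  obtain ⟨c, C, ρ₀, hc, hC, hρ₀, h⟩ := H81T.tail_real m hm v hvm hv h0 he hV
  refine ⟨c, C, ρ₀, hc, hC, hρ₀, fun ρ hρ hρ' => ?_⟩
  obtain ⟨N₀, hN₀⟩ := h ρ hρ hρ'
  refine ⟨N₀, fun N hN ℓ hℓ hNℓ δ hδ ψ hψ hψ1 hmin K hK => ?_⟩
  obtain ⟨h1, h2, h3⟩ := hN₀ N hN ℓ hℓ hNℓ δ hδ ψ hψ hψ1 hmin K hK
  have hof : ∀ (P : Mom → Prop) [DecidablePred P], occE ψ P = ENNReal.ofReal (H81T.oc ψ P) :=
    fun P _ => (ENNReal.ofReal_toReal (H81T.occE_ne_top hψ P)).symm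
  have hoc : ∀ (P : Mom → Prop) [DecidablePred P], 0 ≤ H81T.oc ψ P :=
    fun P _ => H81T.oc_nonneg ψ P
  have hK0 : 0 < K := by linarith
  have a1 : 0 ≤ C / K * √ρ * N := by positivity
  have a2 : 0 ≤ C / K ^ 2 := by positivity
  have a3 : 0 ≤ δ * √ρ * N := by positivity
  have a4 : 0 ≤ C / K := by positivity
  refine ⟨?_, ?_, ?_⟩
  · rw [hof, hof, ← ENNReal.ofReal_add a3 (hoc _), ← ENNReal.ofReal_mul a2,
      ← ENNReal.ofReal_add a1 (mul_nonneg a2 (add_nonneg a3 (hoc _)))]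
    exact ENNReal.ofReal_le_ofReal h1
  · intro hδc
    rw [hof, hof (fun n => n ≠ 0), ← ENNReal.ofReal_mul a4]
    exact ENNReal.ofReal_le_ofReal (h2 hδc)
  · intro hδc hKc
    rw [hof, hof (fun n => n ≠ 0 ∧ (2 * Real.pi / ℓ) ^ 2 * (∑ a, (n a : ℝ) ^ 2) ≤ C * ρ),
      ← ENNReal.ofReal_mul a2, ← ENNReal.ofReal_add (hoc _) (mul_nonneg a2 (hoc _))]
    exact ENNReal.ofReal_le_ofReal (h3 hδc hKc)

end Pool.Agent.Results.MP_4952d6_mp.MomentumDistributionTail
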